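import Pool.Agent.Run7.h527.TP.M
import Pool.Agent.Results.MP_807c24_nt.AlmostAllCoefficients

/-!
# MP_807c24_nt: coefficients of the KZ associator at ALL words near aliquot sums, cototients and arithmetic derivatives

A pattern in `k` variables is a nonempty list of letters `b + u_1 s_1 + ... + u_k s_k`; at a tuple `s` of natural numbers
it gives an index. A family `(y, Z)` is an element `y` of a commutative `ℚ`-algebra and a function `Z` from the indices to
the algebra with the stuffle product and with Euler's formula, for example `2 π i` and the multiple zeta values (the KZ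
associator), or the coefficients of the universal associator. The tuple `s` is bad (`BadFor`) if a polynomial relation of degree
at most `D` with integer coefficients at most `H` between `2 π i` and the multiple zeta values of the patterns at `s` fails (1) for
some family, if all constant first letters of each pattern are equal and even, (2) for some family for which all the relations
between `2 π i` and the multiple zeta values of the fronts hold, in general.

Let `F_1, …, F_k` be functions such as the sum of the proper divisors, the cototient `m - φ(m)`, the arithmetic derivative, or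
a positive combination `α m + β f(m)`, with `f = σ`, `φ` or the arithmetic derivative. Let `k (θ + 1 - τ) < 1`, `τ ≤ 1`. For all
tuples `m ∈ [1, N] ^ k` whose entries have two prime factors `p ≠ q`, not dividing `m_i / (p q) ≥ 2`, with `p q ≥ m_i^τ`, but at
most `N^(k - δ)` of them, NO tuple `s` with `|s_i - F_i(m_i)| ≤ F_i(m_i)^θ` and `T ≤ s_i ≤ κ T` is bad, for `H = C^T`: the relations
at these words are in the ideal of the universal associator. In one variable, for every `ε > 0` there is `θ > 0` such that this
holds for ALL `m ≤ N` but `ε N`.

Proof. Write `m = j p q`. Then `F(m) = a p q + b (p + q) + c` with integers `a ≠ 0`, `b`, `c` which depend on `j` only, and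
`(a p + b) (a q + b) = a F(m) + b² - a c`. So for given `j` every value is taken for at most `N^ε` pairs `p`, `q` (the tool
`Run7/h527/TP`), and by the starting theorem `AlmostAllCoefficients` the bad tuples in `[N, κ N] ^ k` are at most
`K N^(k - 1)`. For small `τ` all but `ε N` integers have two such primes, by the second moment of the number of the prime
factors in `(N^(τ / 2), N^(1 / 8))`. The starting library treats multiplicative `F_i`, on other pages.
-/

set_option autoImplicit false

namespace Pool.Agent.Results.MP_807c24_nt.AliquotSums

open AlmostAllCoefficients (mzv mu Letter index AdmissiblePattern fronts EvenFront IsFamily Transfers Bad BadFor part1 part2)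
open Run7.h527.TP (Bil Near NearOne FewTuples near near_one aliquot cototient deriv sig comb)

theorem mono {k r : ℕ} (w : Fin r → List (Letter k)) (D : ℕ)
    (F : ∀ (A : Type) [CommRing A] [Algebra ℚ A], A → (List ℕ → A) → Prop) (H H' : ℝ) (s : Fin k → ℕ) (h : H ≤ H')
    (hB : BadFor w D F H s) : BadFor w D F H' s := by
  obtain ⟨A, i1, i2, y, Z, h1, h2, P, h3, h4, h5⟩ := hB
  exact ⟨A, i1, i2, y, Z, h1, h2, P, h3, fun m => (h4 m).trans h, h5⟩

/-- **Theorem.** (1) Let `w_1, ..., w_r` be admissible patterns in `k ≥ 1` variables, `D`, `κ` natural numbers, `C` a real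
number, `F_1, ..., F_k` functions of the class `Bil`, `θ ≥ 0`, `τ ≤ 1`, `k (θ + 1 - τ) < 1`. There is `δ > 0` such that for all
large `N`, for all `m ∈ [1, N] ^ k` with `Two τ (m_i)` for all `i` but at most `N ^ (k - δ)` of them, for ALL tuples `s` with
`|s_i - F_i(m_i)| ≤ F_i(m_i) ^ θ` and `T ≤ s_i ≤ κ T`, every polynomial relation of degree at most `D` with integer coefficients
at most `C ^ T` between `2 π i` and the multiple zeta values of the patterns at `s` holds for all families `(y, Z)`, if the fronts
are even, and for all families for which the relations between `2 π i` and the multiple zeta values of the fronts hold, in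
general. (2) In one variable, for every `ε > 0` there is `θ > 0` such that for all `F` of the class `Bil`, all `C` and all large
`N` this is true for ALL `m ≤ N` but at most `ε N` and all integers `s ≥ 1` with `|s - F(m)| ≤ F(m) ^ θ`, with coefficients at
most `C ^ s`. (3) The sum of the proper divisors, the cototient, the arithmetic derivative and their positive combinations
with the identity are in `Bil`. -/
theorem result :
    (∀ (k r : ℕ), 1 ≤ k → ∀ w : Fin r → List (Letter k), (∀ i, AdmissiblePattern (w i)) → ∀ D : ℕ,
      ((∀ i, EvenFront (w i)) → Near (BadFor w D fun _ _ _ _ _ => True)) ∧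
      Near (BadFor w D fun _ _ _ y Z => Transfers (fronts w) y Z)) ∧
    (∀ (r : ℕ) (w : Fin r → List (Letter 1)), (∀ i, AdmissiblePattern (w i)) → ∀ D : ℕ,
      ((∀ i, EvenFront (w i)) → NearOne (BadFor w D fun _ _ _ _ _ => True)) ∧
      NearOne (BadFor w D fun _ _ _ y Z => Transfers (fronts w) y Z)) ∧
    Bil aliquot ∧ Bil cototient ∧ Bil deriv ∧
      (∀ α β : ℤ, (∀ m : ℕ, 2 ≤ m → 0 < α * m + β * sig m) → Bil (comb α β sig)) ∧
      (∀ α β : ℤ, (∀ m : ℕ, 2 ≤ m → 0 < α * m + β * Nat.totient m) → Bil (comb α β Nat.totient)) ∧
      ∀ α β : ℤ, (∀ m : ℕ, 2 ≤ m → 0 < α * m + β * deriv m) → Bil (comb α β deriv) := by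
  refine ⟨fun k r hk w hw D => ⟨fun he => ?_, ?_⟩, fun r w hw D => ⟨fun he => ?_, ?_⟩, Run7.h527.TP.examples⟩
  · exact near hk (mono w D _) fun κ => part1 w hw he D κ
  · exact near hk (mono w D _) fun κ => part2 w hw D κ
  · exact near_one (mono w D _) fun κ => part1 w hw he D κ
  · exact near_one (mono w D _) fun κ => part2 w hw D κ

end Pool.Agent.Results.MP_807c24_nt.AliquotSums
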