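import Mathlib
import Pool.Agent.Run7.h123.LC.LinF

set_option autoImplicit false

/-!
# `ζ(3), ζ(5), ζ(7)` and the fields of numbers with simple expansions

`ζ(3), ζ(5), ζ(7)` are, up to sign, the coefficients of depth one in degrees `3, 5, 7` of the logarithm of the
KZ associator. Let `S` be an infinite set of integers and `K_b` the field generated by the real numbers with
simple expansions (`O(m)` different blocks of length `m`, `m ∈ S`) in bases dependent on `b`.

For all bases `b` independent of one base `ζ(5)` is not in `K_b`. For all `b` independent of at most two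
bases the numbers `1, ζ(3), ζ(5), ζ(7)` span a space of dimension at least three over `K_b`; over `K_G` and
`K_H`, `G ∩ H = 1`, the product of the two dimensions is at least three. The starting files have `ℚ` in
place of these fields.

The proof uses the bound `c / H ^ 1070` for the distance of `(1, ζ(3), ζ(5), ζ(7))` to rational planes
(`PlaneDistanceZeta7`) and the irrationality exponent `83` of `ζ(5)` (`ZetaFiveMeasureSharp`) of the starting
files, with Petridis-Plünnecke inequalities and a matroid argument of Rado type for linearly disjoint fields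
of hyperreal numbers (`Run7/h123/LC/LinP.lean`, `LinL.lean`, `LinM.lean`).
-/

namespace Pool.Agent.Results.MP_807c24_nt.DepthOneOverSimpleFields

/-- the number of different blocks of length `m` in the sequence `w` -/
noncomputable def blocks {A : Type} (w : ℕ → A) (m : ℕ) : ℕ :=
  (Set.range fun i => fun j : Fin m => w (i + j)).ncard

/-- the digit with index `k + 1` after the point in the base `b` expansion of `x` -/
noncomputable def digit (b : ℕ) (x : ℝ) (k : ℕ) : ℤ := ⌊x * (b : ℝ) ^ (k + 1)⌋ % (b : ℤ)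

/-- the sums of the series `∑ γ(w_0) ⋯ γ(w_{k-1}) c(w_k)`, where the `w_k` are in a finite set `A`,
`γ(a)` and `c(a)` are rational, `|γ(a)| < 1`, `|γ(a)|` is in `G` and the sequence `w` has
at most `C m` different blocks of length `m`, for all `m ∈ S` -/
def Series (S : Set ℕ) (G : Subgroup ℚˣ) : Set ℝ :=
  {x | ∃ (A : Type) (_ : Finite A) (γ c : A → ℚ) (w : ℕ → A) (C : ℝ),
    (∀ a, ∃ u ∈ G, |γ a| = ((u : ℚˣ) : ℚ)) ∧ (∀ a, |γ a| < 1) ∧
    HasSum (fun n => (∏ k ∈ Finset.range n, (γ (w k) : ℝ)) * (c (w n) : ℝ)) x ∧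
    ∀ m ∈ S, (blocks w m : ℝ) ≤ C * m}

/-- the field generated by `Series S G` -/
noncomputable def K (S : Set ℕ) (G : Subgroup ℚˣ) : Subfield ℝ := Subfield.closure (Series S G)

/-- the group of the positive rational numbers `u` such that `u ^ m = b ^ k` for some integers
`m ≥ 1` and `k` -/
def group (b : ℕ) : Subgroup ℚˣ := Pool.Agent.Run7.h123.LC.rad b

lemma mem_group {b : ℕ} {u : ℚˣ} : u ∈ group b ↔ 0 < (u : ℚ) ∧
    ∃ (m : ℕ) (k : ℤ), 1 ≤ m ∧ (u : ℚ) ^ m = (b : ℚ) ^ k := Iff.rfl

/-- multiplicatively independent integers -/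
def Independent {r : ℕ} (b : Fin r → ℕ) : Prop :=
  ∀ k : Fin r → ℤ, ∏ i, (b i : ℚ) ^ k i = 1 → k = 0

/-- independent groups -/
def IndependentGroups {r : ℕ} (G : Fin r → Subgroup ℚˣ) : Prop :=
  ∀ g : Fin r → ℚˣ, (∀ i, g i ∈ G i) → ∏ i, g i = 1 → ∀ i, g i = 1

/-- for some `k < r` and multiplicatively independent `c_1, …, c_k ≥ 2`, `P b` is true for all `b ≥ 2`
such that `c_1, …, c_k, b` are multiplicatively independent -/
def AllBut (r : ℕ) (P : ℕ → Prop) : Prop :=
  ∃ (k : ℕ) (c : Fin k → ℕ), k < r ∧ (∀ i, 2 ≤ c i) ∧ Independent c ∧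
    ∀ b : ℕ, 2 ≤ b → Independent (Fin.snoc c b : Fin (k + 1) → ℕ) → P b

/-- the zeta value `ζ(i) = ∑ 1 / n^i` -/
noncomputable def zeta (i : ℕ) : ℝ := ∑' n : ℕ, 1 / ((n : ℝ) + 1) ^ i

/-- the dimension of the `F`-vector space spanned by `1, ζ(3), ζ(5), ζ(7)` -/
noncomputable def dim (F : Subfield ℝ) : ℕ :=
  Module.finrank F (Submodule.span F ({1, zeta 3, zeta 5, zeta 7} : Set ℝ))

open Pool.Agent.Run7.h123.LC in
theorem dim_eq (F : Subfield ℝ) : dim F = Module.finrank F (sp7 F) := by
  unfold dim sp7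
  have h1 : (({1, zt 3, zt 5, zt 7} : Finset ℝ) : Set ℝ) = {1, zeta 3, zeta 5, zeta 7} := by
    rw [Finset.coe_insert, Finset.coe_insert, Finset.coe_insert, Finset.coe_singleton]
    rfl
  rw [h1]

open Pool.Agent.Run7.h123.LC in
theorem allBut {P : ℕ → Prop} {r : ℕ} (hr : 1 ≤ r)
    (h : ∀ c : Fin r → ℕ, (∀ i, 2 ≤ c i) → Independent c → ∃ i, P (c i)) : AllBut r P := by
  obtain ⟨n, rfl⟩ : ∃ n, r = n + 1 := ⟨r - 1, by omega⟩
  obtain ⟨k, c, hk, hc, hi, hb⟩ := outside_rank (fun b => ¬ P b) n (fun c hc hi hall => by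
    obtain ⟨i, hi⟩ := h c hc hi
    exact hall i hi)
  exact ⟨k, c, by omega, hc, hi, fun b hb2 hbi => not_not.1 (hb b hb2 hbi)⟩

/-- Let `S` be an infinite set of integers.

(1) There is `c ≥ 2` such that `ζ(5)` is not in `K S b` for all `b ≥ 2` multiplicatively independent
of `c`. There are at most two multiplicatively independent `c_i ≥ 2` such that `1, ζ(3), ζ(5), ζ(7)` span a
vector space of dimension at least `3` over `K S b` for all `b ≥ 2` multiplicatively independent of them.

(2) If `G ∩ H = 1`, then `ζ(5)` is not in both of the fields `K S G`, `K S H`, and the dimensions of the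
spaces spanned by `1, ζ(3), ζ(5), ζ(7)` over these fields have product at least `3`. If `G_1, G_2, G_3`
are independent, then one of the three dimensions over the `K S G_i` is at least `3`.

(3) The field `K S b` contains the rational numbers and all real numbers which have, in some base
`d ≥ 2` with `d ^ m = b ^ k`, `m ≥ 1`, at most `C m` different blocks of `m` digits, `m ∈ S`, for some
`C`. -/
theorem result :
    (∀ S : Set ℕ, S.Infinite →
      AllBut 2 (fun b => zeta 5 ∉ K S (group b)) ∧
      AllBut 3 (fun b => 3 ≤ dim (K S (group b))) ∧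
      (∀ G H : Subgroup ℚˣ, G ⊓ H = ⊥ → (zeta 5 ∉ K S G ∨ zeta 5 ∉ K S H) ∧
        3 ≤ dim (K S G) * dim (K S H)) ∧
      ∀ G : Fin 3 → Subgroup ℚˣ, IndependentGroups G → ∃ i, 3 ≤ dim (K S (G i))) ∧
    (∀ (S : Set ℕ) (b d m k : ℕ), 2 ≤ d → 1 ≤ m → d ^ m = b ^ k → ∀ x C : ℝ,
      (∀ m ∈ S, (blocks (digit d x) m : ℝ) ≤ C * m) → x ∈ K S (group b)) ∧
    (∀ (S : Set ℕ) (G : Subgroup ℚˣ) (x : ℚ), (x : ℝ) ∈ K S G) := by
  refine ⟨fun S hS => ?_, fun S b d m k hd hm h x C hC => ?_,
    fun S G x => SubfieldClass.ratCast_mem _ x⟩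
  · have h5 : ∀ G H : Subgroup ℚˣ, G ⊓ H = ⊥ → zeta 5 ∉ K S G ∨ zeta 5 ∉ K S H := by
      intro G H hGH
      by_contra hcon
      push Not at hcon
      exact Pool.Agent.Run7.h123.LC.zeta_five hS hGH hcon.1 hcon.2
    have key : ∀ G : Fin 3 → Subgroup ℚˣ, IndependentGroups G → ∃ i, 3 ≤ dim (K S (G i)) := by
      intro G hG
      have h4 := Pool.Agent.Run7.h123.LC.sp7_three hS hG (F := fun i => K S (G i))
        (fun i => le_rfl)
      push Not at h4
      obtain ⟨i, hi⟩ := h4
      refine ⟨i, ?_⟩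
      rw [dim_eq]
      exact hi
    refine ⟨?_, ?_, fun G H hGH => ⟨h5 G H hGH, ?_⟩, key⟩
    · refine allBut (by norm_num) fun c hc hi => ?_
      have hi' : Pool.Agent.Run7.h123.LC.MInd ![c 0, c 1] := by
        have : ![c 0, c 1] = c := by
          funext i
          fin_cases i <;> rfl
        rw [this]
        exact hi
      rcases h5 (group (c 0)) (group (c 1)) (Pool.Agent.Run7.h123.LC.rad_inf (hc 0) (hc 1) hi') with
        h | h
      · exact ⟨0, h⟩
      · exact ⟨1, h⟩
    · exact allBut (by norm_num) fun c hc hi => key (fun i => group (c i))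
        (Pool.Agent.Run7.h123.LC.gindep_rad hc hi)
    · rw [dim_eq, dim_eq]
      exact Pool.Agent.Run7.h123.LC.sp7_two hS hGH le_rfl le_rfl
  · have hb0 : (d : ℚ) ≠ 0 := by
      have : d ≠ 0 := by omega
      exact_mod_cast this
    have hu : ∃ u ∈ group b, (u : ℚ) = d := by
      refine ⟨Units.mk0 (d : ℚ) hb0, mem_group.2 ⟨?_, m, (k : ℤ), hm, ?_⟩, rfl⟩
      · rw [Units.val_mk0]
        positivity
      · rw [Units.val_mk0, zpow_natCast]
        exact_mod_cast h
    exact Pool.Agent.Run7.h123.LC.digits_mem hd hu hC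

end Pool.Agent.Results.MP_807c24_nt.DepthOneOverSimpleFields
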