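import Pool.Agent.Run7.h467.GA.One
import Pool.Agent.Results.MP_807c24_nt.AlmostAllCoefficients

/-!
# MP_807c24_nt: relations between the coefficients of the KZ associator at the entries of all good rational approximations

A pattern in `k` variables is a nonempty list of letters `b + u_1 s_1 + ... + u_k s_k`; at a tuple `s` of natural numbers
it gives an index. The first letters may be constant, such as in `ζ(2, 2, s_1, 3, s_1 + s_2)`. A family `(y, Z)` is an element
`y` of a commutative `ℚ`-algebra and a function `Z` from the indices to the algebra with the stuffle product and with Euler's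
formula `Z(2 m) = - B_{2m} y ^ (2 m) / (2 (2 m)!)`; for the KZ associator it is `2 π i` and the multiple zeta values, and the
universal associator gives a family. The tuple `s` is bad for `(y, Z)` (and `D`, `H`) if a polynomial relation of degree at most
`D` with integer coefficients at most `H` between `2 π i` and the multiple zeta values of the patterns at `s` fails for
`(y, Z)`. For the universal associator this means that the polynomial is in the kernel of `φ_KZ` and not in `I`.

Let `α` be a point of `ℝ ^ d`, and let `(p, q)`, `p ∈ ℤ ^ d`, run through its approximations with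
`|α_i - p_i / q| ≤ c q ^ (-1-σ)`; by Dirichlet's theorem there are infinitely many for `σ = 1 / d`, `c = 1`, for every `α`.
We consider ALL tuples `s` of `k ≤ d + 1` natural numbers of the same order of magnitude which are small linearly independent
combinations `u_j · p + v_j q` of the entries of such an approximation, up to small errors: with coefficients at most
`c q ^ η` and errors at most `c q ^ θ`. For example `s = (q, p_1, ..., p_d)` or `s = (p_1, ..., p_d)`, with errors at most `c`.

Theorem. (1) For all `α` but a set of Hausdorff dimension at most `(d + (k (d + 2) - 1) η + k θ) / (1 + σ)`, for all patterns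
in `k` variables and all `D`, `C`, `c` none of these tuples `s` is bad for `D` and `H = C ^ q`, for all but finitely many
`(p, q)`, for all families at once for which all the relations between `2 π i` and the multiple zeta values of the (finitely
many) constant fronts of the patterns hold. For `σ = 1 / d` the bound is smaller than `d` if `(k (d + 2) - 1) η + k θ < 1`; it
is `d ^ 2 / (d + 1)` for `η = θ = 0`. (2) If the constant first letters of each pattern are equal and even (or if there are
none) this holds unconditionally for all families, in particular for the universal associator.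
(3) Conversely, let `(y, Z)` be a family in a domain, with `Z(s) ≠ 0` for all large odd `s` (for example the universal
associator). Then the following are equivalent: (a) all polynomial relations between `2 π i` and the multiple zeta values hold
for `(y, Z)` (for the universal associator: `φ_KZ` is injective); (b) the conclusion of (1) holds for `(y, Z)` and all patterns;
(c) for all patterns in one variable with exactly one letter which is not constant, `s + b`, there is ONE real number `α` such
that the conclusion of (1) holds for `(y, Z)` at `α` for `D = 1`, `σ = 1`, `η = θ = 0`.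

`AlmostAllCoefficients` bounds the number of the bad tuples in `[N, κ N] ^ k` by `K N ^ (k - 1)`. This does not exclude bad
tuples near all directions. The good approximations are a very thin set of vectors; the size of the set of the exceptional `α`
is estimated by the Hausdorff-Cantelli lemma, after a count of the vectors `(q, p)` for which some independent small forms are
near a bad tuple (`Pool.Agent.Run7.h467.GA`).
-/

set_option autoImplicit false

open Filter MeasureTheory

namespace Pool.Agent.Results.MP_807c24_nt.GoodApproximations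

open AlmostAllCoefficients (mzv mu Letter index AdmissiblePattern fronts EvenFront OneLarge IsFamily Transfers Bad BadFor
  part1 part2 c_to_a OneLargeArgument)

/-- The members of the tuple `s` are at distance at most `c q ^ θ` from the values `u_j · p + v_j q` of linearly independent
integral linear forms with coefficients at most `c q ^ η`. -/
def NearForms {d k : ℕ} (η θ c : ℝ) (p : Fin d → ℤ) (q : ℕ) (s : Fin k → ℕ) : Prop :=
  ∃ (u : Fin k → Fin d → ℤ) (v : Fin k → ℤ),
    (∀ a : Fin k → ℤ, (∀ i, ∑ j, a j * u j i = 0) → ∑ j, a j * v j = 0 → a = 0) ∧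
    (∀ j i, |(u j i : ℝ)| ≤ c * (q : ℝ) ^ η) ∧ (∀ j, |(v j : ℝ)| ≤ c * (q : ℝ) ^ η) ∧
    ∀ j, |(s j : ℝ) - (∑ i, (u j i : ℝ) * p i + v j * q)| ≤ c * (q : ℝ) ^ θ

/-- For all `C`, `c` and all but finitely many approximations `(p, q)` of `α` with `|α_i - p_i / q| ≤ c q ^ (-1-σ)` the property
`E (C ^ q)` fails for all tuples `s` of natural numbers near independent small forms in `(p, q)`, with `s_i ≤ c s_j` and
`q ≤ c s_j` for all `i`, `j`. -/
def Holds {d k : ℕ} (σ η θ : ℝ) (E : ℝ → (Fin k → ℕ) → Prop) (α : Fin d → ℝ) : Prop :=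
  ∀ C c : ℝ, ∃ Q : ℕ, ∀ (p : Fin d → ℤ) (q : ℕ), Q ≤ q → (∀ i, |α i - p i / q| ≤ c / (q : ℝ) ^ (1 + σ)) →
    ∀ s : Fin k → ℕ, (∀ i j, (s i : ℝ) ≤ c * s j) → (∀ j, (q : ℝ) ≤ c * s j) → NearForms η θ c p q s → ¬ E (C ^ q) s

/-- Let `E w D H s` be a property of tuples, for patterns `w` in `k` variables. For all `k ≥ 1`, `d`, `σ`, `η`, `θ` the set of
the `α` in `ℝ ^ d` for which `Holds` fails for some admissible patterns in `k` variables with the property `A` and some `D`
has Hausdorff dimension at most `(d + (k (d + 2) - 1) η + k θ) / (1 + σ)`. -/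
def Small (A : ∀ k r : ℕ, (Fin r → List (Letter k)) → Prop)
    (E : ∀ k r : ℕ, (Fin r → List (Letter k)) → ℕ → ℝ → (Fin k → ℕ) → Prop) : Prop :=
  ∀ (k : ℕ), 1 ≤ k → ∀ (d : ℕ) (σ η θ : ℝ), 0 ≤ σ → 0 ≤ η → 0 ≤ θ → θ ≤ 1 →
    dimH {α : Fin d → ℝ | ∃ (r : ℕ) (w : Fin r → List (Letter k)) (D : ℕ), (∀ i, AdmissiblePattern (w i)) ∧ A k r w ∧
      ¬ Holds σ η θ (E k r w D) α} ≤ ENNReal.ofReal ((d + (k * (d + 2) - 1) * η + k * θ) / (1 + σ))

/-- statement (b): the conclusion for the family `(y, Z)` and all patterns -/
def AllPatterns {A : Type} [CommRing A] (y : A) (Z : List ℕ → A) : Prop :=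
  Small (fun _ _ _ => True) fun _ _ w D H s => Bad w D H y Z s

/-- statement (c) -/
def OnePoint {A : Type} [CommRing A] (y : A) (Z : List ℕ → A) : Prop :=
  ∀ (r : ℕ) (w : Fin r → List (Letter 1)), (∀ i, AdmissiblePattern (w i) ∧ OneLarge (w i)) →
    ∃ α : Fin 1 → ℝ, Holds 1 0 0 (fun H s => Bad w 1 H y Z s) α

lemma bad_mono {k r : ℕ} (w : Fin r → List (Letter k)) (D : ℕ) {A : Type} [CommRing A] (y : A) (Z : List ℕ → A)
    (H H' : ℝ) (s : Fin k → ℕ) (h : H ≤ H') (hB : Bad w D H y Z s) : Bad w D H' y Z s := by
  obtain ⟨P, h1, h2, h3, h4⟩ := hB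
  exact ⟨P, h1, fun m => (h2 m).trans h, h3, h4⟩

lemma badFor_mono {k r : ℕ} (w : Fin r → List (Letter k)) (D : ℕ)
    (F : ∀ (A : Type) [CommRing A] [Algebra ℚ A], A → (List ℕ → A) → Prop) (H H' : ℝ) (s : Fin k → ℕ) (h : H ≤ H')
    (hB : BadFor w D F H s) : BadFor w D F H' s := by
  obtain ⟨A, i1, i2, y, Z, h1, h2, h3⟩ := hB
  exact ⟨A, i1, i2, y, Z, h1, h2, bad_mono w D y Z H H' s h h3⟩

lemma small_of (A : ∀ k r : ℕ, (Fin r → List (Letter k)) → Prop)
    (E : ∀ k r : ℕ, (Fin r → List (Letter k)) → ℕ → ℝ → (Fin k → ℕ) → Prop)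
    (hE : ∀ k r w D H H' s, H ≤ H' → E k r w D H s → E k r w D H' s)
    (h : ∀ k r (w : Fin r → List (Letter k)), (∀ i, AdmissiblePattern (w i)) → A k r w → ∀ D κ : ℕ,
      AlmostAllCoefficients.Few κ (E k r w D)) : Small A E := by
  intro k hk d σ η θ hσ hη hθ hθ1
  have h1 := Run7.h467.GA.metric hk (I := Σ r : ℕ, (Fin r → List (Letter k)) × ℕ)
    (fun i => (∀ j, AdmissiblePattern (i.2.1 j)) ∧ A k i.1 i.2.1) (fun i => E k i.1 i.2.1 i.2.2)
    (fun i H H' s => hE k i.1 i.2.1 i.2.2 H H' s) (fun i hi κ => h k i.1 i.2.1 hi.1 hi.2 i.2.2 κ)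
    d hσ hη hθ hθ1
  refine (dimH_mono ?_).trans h1
  rintro α ⟨r, w, D, hw, hA, hH⟩
  exact ⟨⟨r, w, D⟩, ⟨hw, hA⟩, hH⟩

/-- a linear relation which fails for `Z` -/
lemma bad_of_linear {k r : ℕ} (w : Fin r → List (Letter k)) {A : Type} [CommRing A] (y : A) (Z : List ℕ → A)
    (s : Fin k → ℕ) (B : ℕ) (H : ℝ) (hB1 : (B : ℝ) ≤ H) (a : Fin r → ℤ) (ha : ∀ i, |a i| ≤ B)
    (hR : ∑ i, (a i : ℝ) * mzv (index s (w i)) = 0) (hA : ∑ i, (a i : A) * Z (index s (w i)) ≠ 0) :
    Bad w 1 H y Z s := by
  classical
  refine ⟨∑ i, MvPolynomial.C (a i) * MvPolynomial.X (Sum.inr i), ?_, fun m => ?_, ?_, ?_⟩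
  · refine MvPolynomial.totalDegree_finsetSum_le fun i _ => ?_
    refine (MvPolynomial.totalDegree_mul _ _).trans ?_
    rw [MvPolynomial.totalDegree_C, zero_add]
    exact (MvPolynomial.totalDegree_X _).le
  · rw [MvPolynomial.coeff_sum]
    simp only [MvPolynomial.coeff_C_mul, MvPolynomial.coeff_X]
    refine le_trans ?_ hB1
    by_cases hm : ∃ i : Fin r, Finsupp.single (Sum.inr i : Fin 1 ⊕ Fin r) 1 = m
    · obtain ⟨i₀, rfl⟩ := hm
      have h4 : ∑ x, a x * (if Finsupp.single (Sum.inr x : Fin 1 ⊕ Fin r) 1 =
          Finsupp.single (Sum.inr i₀) 1 then (1 : ℤ) else 0) = a i₀ := by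
        rw [Finset.sum_eq_single i₀]
        · rw [if_pos rfl, mul_one]
        · intro x _ hx
          rw [if_neg, mul_zero]
          intro h5
          exact hx (Sum.inr_injective ((Finsupp.single_left_inj one_ne_zero).1 h5))
        · intro h5
          exact absurd (Finset.mem_univ _) h5
      rw [h4]
      exact_mod_cast ha i₀
    · have h4 : ∑ x, a x * (if Finsupp.single (Sum.inr x : Fin 1 ⊕ Fin r) 1 = m then (1 : ℤ) else 0) = 0 := by
        refine Finset.sum_eq_zero fun x _ => ?_
        rw [if_neg fun h5 => hm ⟨x, h5⟩, mul_zero]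
      rw [h4, Int.cast_zero, abs_zero]
      exact Nat.cast_nonneg _
  · rw [map_sum]
    have h6 : ∑ i, ((((a i : ℝ) * mzv (index s (w i)) : ℝ)) : ℂ) = 0 := by
      rw [← Complex.ofReal_sum, hR, Complex.ofReal_zero]
    refine Eq.trans (Finset.sum_congr rfl fun i _ => ?_) h6
    rw [map_mul, MvPolynomial.aeval_C, MvPolynomial.aeval_X, Sum.elim_inr, Complex.ofReal_mul]
    rfl
  · rw [map_sum]
    intro h5
    refine hA (Eq.trans (Finset.sum_congr rfl fun i _ => ?_) h5)
    rw [map_mul, MvPolynomial.aeval_C, MvPolynomial.aeval_X, Sum.elim_inr]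
    rfl

lemma large_of_one {A : Type} [CommRing A] (y : A) (Z : List ℕ → A) (h : OnePoint y Z) : OneLargeArgument Z := by
  intro r w hw B s₁
  obtain ⟨α, hα⟩ := h r w hw
  obtain ⟨s, h1, h2, h3⟩ := Run7.h467.GA.one_point (fun H H' s => bad_mono w 1 y Z H H' s) (C := (B : ℝ) + 1)
    (by have := Nat.cast_nonneg (α := ℝ) B; linarith) hα s₁
  refine ⟨s, h1, h2, fun a ha hR => ?_⟩
  by_contra hA
  exact h3 (bad_of_linear w y Z (fun _ => s) B _ (by linarith) a ha hR hA)

lemma one_of_all {A : Type} [CommRing A] (y : A) (Z : List ℕ → A) (h : AllPatterns y Z) : OnePoint y Z := by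
  have h1 := h 1 le_rfl 1 1 0 0 (by norm_num) le_rfl le_rfl zero_le_one
  obtain ⟨α, hα⟩ := Run7.h467.GA.exists_point le_rfl h1 (by norm_num)
  intro r w hw
  refine ⟨α, ?_⟩
  by_contra hcon
  exact hα ⟨r, w, 1, fun i => (hw i).1, trivial, hcon⟩

lemma all_of_transfers {A : Type} [CommRing A] [Algebra ℚ A] (y : A) (Z : List ℕ → A) (hZ : IsFamily y Z)
    (h : Transfers Set.univ y Z) : AllPatterns y Z :=
  small_of _ _ (fun _ _ w D H H' s => bad_mono w D y Z H H' s)
    fun k r w hw _ D κ => AlmostAllCoefficients.a_to_b y Z hZ h k r w hw D κ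

/-- **Theorem.** (1) For all `k ≥ 1`, `d`, `σ`, `η`, `θ` the points `α` of `ℝ ^ d` with the following property form a set of
Hausdorff dimension at most `(d + (k (d + 2) - 1) η + k θ) / (1 + σ)`: for some admissible patterns in `k` variables, some `D`
and some `C`, `c` there are infinitely many `(p, q)` with `|α_i - p_i / q| ≤ c q ^ (-1-σ)` for which a tuple `s` of comparable
numbers near independent small forms in `(p, q)` is bad, for the degree `D` and the height `C ^ q`, for a family `(y, Z)` for
which the relations between `2 π i` and the multiple zeta values of the fronts hold. (2) The same for the patterns with even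
fronts and all families. (3) For a family `(y, Z)` in a domain, with `Z(s) ≠ 0` for all large odd `s`, the following are
equivalent: all polynomial relations between `2 π i` and the multiple zeta values hold for `(y, Z)`; `AllPatterns y Z`;
`OnePoint y Z`. -/
theorem result :
    (Small (fun _ _ _ => True) fun _ _ w D => BadFor w D fun _ _ _ y Z => Transfers (fronts w) y Z) ∧
    (Small (fun _ _ w => ∀ i, EvenFront (w i)) fun _ _ w D => BadFor w D fun _ _ _ _ _ => True) ∧
    ∀ (A : Type) [CommRing A] [IsDomain A] [Algebra ℚ A] (y : A) (Z : List ℕ → A), IsFamily y Z →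
      (∃ s₀, ∀ s, s₀ ≤ s → Odd s → Z [s] ≠ 0) →
      (Transfers Set.univ y Z ↔ AllPatterns y Z) ∧ (AllPatterns y Z ↔ OnePoint y Z) := by
  refine ⟨small_of _ _ (fun _ _ w D H H' s => badFor_mono w D _ H H' s) fun k r w hw _ D κ => part2 w hw D κ,
    small_of _ _ (fun _ _ w D H H' s => badFor_mono w D _ H H' s) fun k r w hw he D κ => part1 w hw he D κ, ?_⟩
  intro A _ _ _ y Z hZ hs
  obtain ⟨s₀, hne⟩ := hs
  have hback : OnePoint y Z → Transfers Set.univ y Z := fun h => c_to_a y Z hZ s₀ hne (large_of_one y Z h)
  exact ⟨⟨all_of_transfers y Z hZ, fun h => hback (one_of_all y Z h)⟩,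
    ⟨one_of_all y Z, fun h => all_of_transfers y Z hZ (hback h)⟩⟩

end Pool.Agent.Results.MP_807c24_nt.GoodApproximations
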